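import Pool.Agent.U152.BE.Thy

/-!
# Independence of `l` of Betti numbers with compact support: congruences modulo one prime suffice

`BettiData r` describes the quasi-projective varieties over an algebraically closed field, `p > 0`,
the Poincaré polynomials of their cohomology with compact support with coefficients `ℚ_l`, `l ≠ p`,
and, for an odd prime number `r ≠ p`, the quotients `cyc X = (X^r × E) / (ℤ/r)`, where `E` is an
elliptic curve and `ℤ/r` acts by cyclic permutations of the factors `X` and by the translation by a
point of order `r` of `E` (without fixed points).

Theorem.  Let `l`, `m` be prime numbers different from `p`.  The Betti numbers with compact support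
`b_i (X)` for `l` and `m` are equal for all `X` and `i` if and only if they are CONGRUENT MODULO `r`
for all `X` and `i`.
-/

namespace Pool.Agent.Results.MP_c67f4f_ag.CongruencesSuffice

open Pool.Agent.U152.BE

universe u v

/-- **Theorem.** -/
theorem result (r : ℕ) (hr : r.Prime) (T : BettiData.{u, v} r) (l m : T.Pl) :
    T.Equal l m ↔ T.Congruent l m :=
  BettiData.main hr l m

end Pool.Agent.Results.MP_c67f4f_ag.CongruencesSuffice
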